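import Mathlib

set_option autoImplicit false

namespace Pool.Agent.Results.MP_cfde94_co.NoNearAlpha
open Finset

/-- A beta-valuation (graceful labelling) of a finite graph with `n` edges: an injective map
`b` from the vertices to `{0,...,n}` whose edge labels `|b u - b v|` are pairwise different on
different edges and take exactly the values `1,...,n`. -/
def IsBeta {V : Type} (G : SimpleGraph V) (b : V → ℕ) : Prop :=
  Function.Injective b ∧ (∀ v, b v ≤ G.edgeSet.ncard) ∧
    (∀ u v x y, G.Adj u v → G.Adj x y → Nat.dist (b u) (b v) = Nat.dist (b x) (b y) →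
      s(u, v) = s(x, y)) ∧
    {d : ℕ | ∃ u v, G.Adj u v ∧ d = Nat.dist (b u) (b v)} = Set.Icc 1 G.edgeSet.ncard

/-- A near alpha-valuation: a beta-valuation together with a partition of the vertices into a
set `S` of small vertices and its complement, such that every small vertex has a smaller label
than all its neighbours and every other vertex has a larger label than all its neighbours. -/
def IsNearAlpha {V : Type} (G : SimpleGraph V) (b : V → ℕ) : Prop :=
  IsBeta G b ∧ ∃ S : Set V, (∀ v ∈ S, ∀ u, G.Adj v u → b v < b u) ∧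
    (∀ v ∉ S, ∀ u, G.Adj v u → b u < b v)

/-- the complete bipartite graph on 5 + 5 vertices minus a perfect matching -/
def G : SimpleGraph (Fin 5 × Bool) where
  Adj x y := x.1 ≠ y.1 ∧ x.2 ≠ y.2
  symm := ⟨fun _ _ h => ⟨h.1.symm, h.2.symm⟩⟩
  loopless := ⟨fun _ h => h.1 rfl⟩

instance : DecidableRel G.Adj := fun x y => inferInstanceAs (Decidable (x.1 ≠ y.1 ∧ x.2 ≠ y.2))

theorem ncard_edges : G.edgeSet.ncard = 20 := by
  rw [← SimpleGraph.coe_edgeFinset, Set.ncard_coe_finset]
  decide +kernel

def lab : Fin 5 × Bool → ℕ := fun x => if x.2 then ![20, 11, 14, 16, 6] x.1 else ![13, 0, 1, 2, 3] x.1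

theorem beta : IsBeta G lab := by
  refine ⟨by decide +kernel, ?_, by decide +kernel, ?_⟩
  · rw [ncard_edges]; decide +kernel
  · rw [ncard_edges]
    ext d
    constructor
    · rintro ⟨u, v, h, rfl⟩
      revert u v
      simp only [Set.mem_Icc]
      decide +kernel
    · rintro ⟨h1, h2⟩
      interval_cases d <;> (simp only [Set.mem_ofPred_eq]; decide +kernel)

theorem not_near (b : Fin 5 × Bool → ℕ) : ¬ IsNearAlpha G b := by
  classical
  rintro ⟨⟨-, -, hinj, hset⟩, S, h1, h2⟩
  rw [ncard_edges] at hset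
  let P : Finset (Fin 5 × Fin 5) := univ.filter fun p => p.1 ≠ p.2
  let e : Fin 5 × Fin 5 → ℕ := fun p => Nat.dist (b (p.1, true)) (b (p.2, false))
  have hadj : ∀ p ∈ P, G.Adj (p.1, true) (p.2, false) := fun p hp =>
    ⟨(mem_filter.1 hp).2, by simp⟩
  have himg : P.image e = Finset.Icc 1 20 := by
    ext d
    rw [Finset.mem_Icc, ← Set.mem_Icc, ← hset, Finset.mem_image]
    constructor
    · rintro ⟨p, hp, rfl⟩
      exact ⟨_, _, hadj p hp, rfl⟩
    · rintro ⟨⟨i, s⟩, ⟨j, t⟩, ⟨h3, h4⟩, rfl⟩
      cases s <;> cases t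
      · exact absurd rfl h4
      · exact ⟨(j, i), by simpa [P] using h3.symm, Nat.dist_comm _ _⟩
      · exact ⟨(i, j), by simpa [P] using h3, rfl⟩
      · exact absurd rfl h4
  have hsum : ∑ p ∈ P, e p = 210 := by
    rw [← Finset.sum_image (f := fun d => d) (g := e), himg]
    · decide +kernel
    · intro p hp q hq h
      have := hinj _ _ _ _ (hadj p hp) (hadj q hq) h
      simp only [Sym2.eq_iff, Prod.mk.injEq] at this
      rcases this with h5 | h5
      · exact Prod.ext h5.1.1 h5.2.1
      · simp at h5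
  let g : Fin 5 × Bool → ℤ := fun v => if v ∈ S then -(b v : ℤ) else b v
  have he : ∀ p ∈ P, (e p : ℤ) = g (p.1, true) + g (p.2, false) := by
    intro p hp
    have a1 := hadj p hp
    simp only [e, g, Nat.dist]
    by_cases c1 : (p.1, true) ∈ S <;> by_cases c2 : (p.2, false) ∈ S
    · have := h1 _ c1 _ a1
      have := h1 _ c2 _ a1.symm
      omega
    · have := h1 _ c1 _ a1
      simp only [c1, c2, if_true, if_false]
      omega
    · have := h2 _ c1 _ a1
      simp only [c1, c2, if_true, if_false]
      omega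
    · have := h2 _ c1 _ a1
      have := h2 _ c2 _ a1.symm
      omega
  have h3 : (210 : ℤ) = ∑ p ∈ P, (g (p.1, true) + g (p.2, false)) := by
    rw [← Finset.sum_congr rfl he, ← Nat.cast_sum, hsum]; rfl
  simp only [P, Finset.sum_filter, Fintype.sum_prod_type, Fin.sum_univ_five] at h3
  simp at h3
  omega

/-- There is a finite bipartite graph without isolated vertices that has a beta-valuation but no
near alpha-valuation. -/
theorem result : ∃ (V : Type) (_ : Fintype V) (G : SimpleGraph V),
    G.Colorable 2 ∧ (∀ v, ∃ u, G.Adj v u) ∧ (∃ b, IsBeta G b) ∧ ¬ ∃ b, IsNearAlpha G b := by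
  refine ⟨Fin 5 × Bool, inferInstance, G, ⟨⟨fun x => if x.2 then 0 else 1, by decide +kernel⟩⟩,
    by decide +kernel, ⟨lab, beta⟩, fun ⟨b, hb⟩ => not_near b hb⟩

end Pool.Agent.Results.MP_cfde94_co.NoNearAlpha
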